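import Pool.Agent.Run7.h490.RR16
import Pool.Agent.Y563.SE.Main

/-!
# The geometric part of axiom (SEAC) (i) in the complex exponential field: all varieties over
hypersurfaces which are not rational cones at infinity

`G_n = ℂ^n × (ℂ^*)^n`; its elements are functions on `Fin n ⊕ Fin n` (`Sum.inl`: the coordinates
`x`, `Sum.inr`: the coordinates `y`).  The exponential points are the points `(z, e^z)`.

Let `V ⊆ G_n`, `n ≥ 2`, be an irreducible variety of dimension at least `n`, and `X` the Zariski
closure of its projection to `ℂ^n`. Suppose that `X` is a hypersurface, `F = 0` (or that `X` has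
codimension `1` and contains the points with `F = 0`, `g ≠ 0`), and that the leading form of `F` has a
simple irreducible factor `q` (which does not divide the leading form of `g`) with

* `∂_v q ≠ 0` for every `v ∈ ℚ^n`, `v ≠ 0`

(the component `q = 0` of `X` at infinity is not a cone with a rational vertex; no rational change of
the coordinates makes `q` a form in fewer variables).

(A) Every translate `c V` contains exponential points, and they are Zariski dense in `c V`.

(B) If `dim V = n` and `V` is defined over a countable field `K` then on almost all translates `c V` the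
exponential points are generic: they have transcendence degree `n = dim V` over `K(c)`, and they are
Zariski dense.

(C) The condition holds for every `F` of degree `≥ 2` in `n ≥ 3` variables for which the hypersurface at
infinity (leading form `= 0`) is smooth. So (A) and (B) hold for all varieties of dimension `≥ n`
over all hypersurfaces of degree `≥ 2` which are smooth at infinity.

(D) It holds for almost all `F` of degree `d ≥ 1` in `n ≥ 2` variables.

Proof of (A).  Let `dim V = n`.  The fibres of `V` over `X` are curves in `(ℂ^*)^n`. On a branch at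
infinity of these curves `log |y_j| = v_j T + O(log |x|)` with a vector `v ∈ ℚ^n`, `v ≠ 0`,
`T → ∞`.

If there is `ξ ∈ ℂ^n` with `Re ξ = v`, `q (ξ) = 0`, `∂_v q (ξ) ≠ 0`, then near `R ξ` the hypersurface
`X` is a graph over the space `ℂ^n / ℂ v`, and the equations `x_j = log y_j + 2 π i N_j` are solved
there by a fixed point argument (`|N| ~ R`, `T ~ R`). This is so if the real zeros of `q` are not
Zariski dense in `q = 0`.

If the real zeros of `q` are Zariski dense, the equations are solved near `i R e`, where `e` is a generic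
real zero of `q`; then `T ~ log R` and all of `log |y_j|` are of the size `log |x|`. The branches of
the curves have here exponents depending on the chart (the initial exponents of the algebraic functions
`y_j` of `x` at infinity along the directions `e` and of the parameter `y_1`, which may be large or
small compared with powers of `x`); after finitely many steps in a finite list of such exponents a
branch is found for which the equations for the real parts, which are linear in `log |x|` and `T` with
rational coefficients, can be solved; the imaginary parts are solved by a fixed point argument on a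
strip in the logarithm of the parameter.

Parts of the proof are in starting files: the folders `UG` and `E8` named in the hand-in
`LinearSpacesAtInfinity`, `Pool.Agent.H552R3.Tsen`, `Pool.Agent.K3h68.ET.GENA`.
-/

set_option autoImplicit false

open MvPolynomial MeasureTheory

namespace Pool.Agent.Results.MP_209724_lc.HypersurfacesAtInfinity

/-- `V` is the set of points of `G_n = ℂ^n × (ℂ^*)^n` on which the prime ideal `P` vanishes: an
irreducible subvariety. -/
structure IsVariety {n : ℕ} (P : Ideal (MvPolynomial (Fin n ⊕ Fin n) ℂ))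
    (V : Set (Fin n ⊕ Fin n → ℂ)) : Prop where
  prime : P.IsPrime
  points : V = {p | (∀ f ∈ P, eval p f = 0) ∧ ∀ j : Fin n, p (Sum.inr j) ≠ 0}
  nonempty : V.Nonempty

/-- the coordinates with index in `J` are algebraically independent on `V` -/
def Indep {n : ℕ} (V : Set (Fin n ⊕ Fin n → ℂ)) (J : Finset (Fin n ⊕ Fin n)) : Prop :=
  ∀ f : MvPolynomial (Fin n ⊕ Fin n) ℂ, f.vars ⊆ J → (∀ p ∈ V, eval p f = 0) → f = 0

/-- `dim V = d`: the largest number of algebraically independent coordinates is `d` -/
def HasDim {n : ℕ} (V : Set (Fin n ⊕ Fin n → ℂ)) (d : ℕ) : Prop :=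
  (∃ J, J.card = d ∧ Indep V J) ∧ ∀ J, J.card = d + 1 → ¬ Indep V J

/-- the coordinates `x_i`, `i ∈ K`, are algebraically independent on `V` -/
def XIndep {n : ℕ} (V : Set (Fin n ⊕ Fin n → ℂ)) (K : Finset (Fin n)) : Prop :=
  ∀ G : MvPolynomial (Fin n) ℂ, G.vars ⊆ K →
    (∀ u ∈ V, eval (fun i => u (Sum.inl i)) G = 0) → G = 0

/-- the Zariski closure `X` of the projection of `V` to `ℂ^n` has dimension `s` -/
def BaseDim {n : ℕ} (V : Set (Fin n ⊕ Fin n → ℂ)) (s : ℕ) : Prop :=
  (∃ K, K.card = s ∧ XIndep V K) ∧ ∀ K, K.card = s + 1 → ¬ XIndep V K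

/-- the point `x` lies in the Zariski closure `X` of the projection of `V` to `ℂ^n` -/
def OnBase {n : ℕ} (V : Set (Fin n ⊕ Fin n → ℂ)) (x : Fin n → ℂ) : Prop :=
  ∀ G : MvPolynomial (Fin n) ℂ, (∀ u ∈ V, eval (fun i => u (Sum.inl i)) G = 0) → eval x G = 0

/-- the leading form of a polynomial -/
noncomputable def leading {n : ℕ} (q : MvPolynomial (Fin n) ℂ) : MvPolynomial (Fin n) ℂ :=
  homogeneousComponent q.totalDegree q

/-- `X`, the Zariski closure of the projection of `V` to `ℂ^n`, has codimension `1` and dimension at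
least `1`, and it contains the points with `F = 0`, `g ≠ 0`; the leading form of `F` has a simple
irreducible factor `q`, not a divisor of the leading form of `g`, whose derivatives in the directions
of all rational vectors `v ≠ 0` are not zero -/
def HypersurfaceBase {n : ℕ} (V : Set (Fin n ⊕ Fin n → ℂ)) : Prop :=
  ∃ (s : ℕ) (F g q u : MvPolynomial (Fin n) ℂ), n = s + 1 ∧ 1 ≤ s ∧ BaseDim V s ∧
    (∀ x, eval x F = 0 → eval x g ≠ 0 → OnBase V x) ∧ leading F = q * u ∧ Irreducible q ∧
    ¬ q ∣ u ∧ ¬ q ∣ leading g ∧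
    ∀ v : Fin n → ℚ, v ≠ 0 → ∑ i, C (v i : ℂ) * pderiv i q ≠ 0

/-- the exponents of the monomials of degree at most `d` in `n` variables -/
def exponents (n d : ℕ) : Finset (Fin n →₀ ℕ) :=
  (Finset.range (d + 1)).biUnion fun k => Finset.finsuppAntidiag Finset.univ k

/-- the polynomial of degree at most `d` with the coefficients `a m` -/
noncomputable def poly {n d : ℕ} (a : {m // m ∈ exponents n d} → ℂ) : MvPolynomial (Fin n) ℂ :=
  ∑ m : {m // m ∈ exponents n d}, monomial m.1 (a m)

/-- the translate `c V` -/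
def Translate {n : ℕ} (c : Fin n ⊕ Fin n → ℂ) (V : Set (Fin n ⊕ Fin n → ℂ)) :
    Set (Fin n ⊕ Fin n → ℂ) :=
  {p | ∃ u ∈ V, p = Sum.elim (fun i => u (Sum.inl i) + c (Sum.inl i))
    (fun i => c (Sum.inr i) * u (Sum.inr i))}

/-- the exponential point `(z, e^z)` -/
noncomputable def ExpPoint {n : ℕ} (z : Fin n → ℂ) : Fin n ⊕ Fin n → ℂ :=
  Sum.elim z (fun i => Complex.exp (z i))

/-- `tr.deg_{K(c)} K(c)(z, e^z)` -/
noncomputable def trdegOver {n : ℕ} (K : Subfield ℂ) (c : Fin n ⊕ Fin n → ℂ) (z : Fin n → ℂ) :
    Cardinal :=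
  Algebra.trdeg (IntermediateField.adjoin K (Set.range c))
    (IntermediateField.adjoin (IntermediateField.adjoin K (Set.range c)) (Set.range (ExpPoint z)))

private theorem pcomm {n : ℕ} (i j : Fin n) (T : MvPolynomial (Fin n) ℂ) :
    pderiv i (pderiv j T) = pderiv j (pderiv i T) := by
  have h : ⁅(pderiv i : Derivation ℂ (MvPolynomial (Fin n) ℂ) (MvPolynomial (Fin n) ℂ)),
      (pderiv j : Derivation ℂ (MvPolynomial (Fin n) ℂ) (MvPolynomial (Fin n) ℂ))⁆ = 0 := by
    apply MvPolynomial.derivation_ext
    intro k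
    rw [Derivation.commutator_apply, pderiv_X, pderiv_X, Pi.single_apply, Pi.single_apply]
    split_ifs <;> simp
  have h1 := congrArg (fun D => D T) h
  simp only [Derivation.commutator_apply, Derivation.coe_zero, Pi.zero_apply] at h1
  exact sub_eq_zero.1 h1

/-- the leading form of a polynomial which is smooth at infinity is irreducible and it is not a form
in fewer variables -/
private theorem smooth_infinity {n : ℕ} (hn : 3 ≤ n) (F : MvPolynomial (Fin n) ℂ)
    (hd : 2 ≤ F.totalDegree)
    (hs : ∀ x : Fin n → ℂ, (∀ i, eval x (pderiv i (leading F)) = 0) → x = 0) :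
    Irreducible (leading F) ∧
      ∀ v : Fin n → ℚ, v ≠ 0 → ∑ i, C (v i : ℂ) * pderiv i (leading F) ≠ 0 := by
  have hF0 : F ≠ 0 := by
    rintro rfl
    simp at hd
  obtain ⟨T, hT⟩ : ∃ T, T = leading F := ⟨_, rfl⟩
  rw [← hT] at hs ⊢
  have hTh : T.IsHomogeneous F.totalDegree := by
    rw [hT]
    exact homogeneousComponent_isHomogeneous _ _
  have hT0 : T ≠ 0 := by
    intro h0
    have h1 := hs (fun _ => 1) (fun i => by rw [h0, map_zero, map_zero])
    have h2 := congrFun h1 ⟨0, by omega⟩
    simp at h2
  have hTd : T.totalDegree = F.totalDegree := hTh.totalDegree hT0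
  constructor
  · refine ⟨fun hu => ?_, fun A B hAB => ?_⟩
    · obtain ⟨c, -, hc⟩ := MvPolynomial.isUnit_iff_eq_C_of_isReduced.1 hu
      rw [hc, totalDegree_C] at hTd
      omega
    · by_contra hcon
      push Not at hcon
      have hpos : ∀ Q : MvPolynomial (Fin n) ℂ, Q ∣ T → ¬ IsUnit Q →
          eval (0 : Fin n → ℂ) Q = 0 := by
        intro Q hQ hQu
        have h1 := Pool.Agent.Run7.h490.homog_of_dvd hTh hT0 hQ
        have hQ0 : Q ≠ 0 := fun h => hT0 (by
          obtain ⟨R, hR⟩ := hQ
          rw [hR, h, zero_mul])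
        have h2 : Q.totalDegree ≠ 0 := by
          intro h2
          rw [totalDegree_eq_zero_iff_eq_C] at h2
          apply hQu
          rw [h2]
          refine IsUnit.map C (isUnit_iff_ne_zero.2 ?_)
          intro h0
          rw [h0, map_zero] at h2
          exact hQ0 h2
        have h3 := Pool.Agent.Run7.h490.eval_hsmul Q h1 0 0
        rw [zero_smul, zero_pow h2, zero_mul] at h3
        exact h3
      obtain ⟨z, hz, hz0⟩ := Pool.Agent.H552R3.Tsen.exists_common_zero
        (fun i : Fin 2 => if i = 0 then A else B) (fun i => by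
          split_ifs
          · exact hpos A ⟨B, hAB⟩ hcon.1
          · exact hpos B ⟨A, by rw [hAB, mul_comm]⟩ hcon.2) (by
          rw [Fintype.card_fin, Fintype.card_fin]
          omega)
      have hA := hz0 0
      have hB := hz0 1
      rw [if_pos rfl] at hA
      rw [if_neg (by decide)] at hB
      apply hz
      apply hs z
      intro i
      rw [hAB, Derivation.leibniz]
      simp only [smul_eq_mul, map_add, map_mul, hA, hB, zero_mul, add_zero]
  · intro v hv h0
    have h1 : (fun i => (v i : ℂ)) = 0 := by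
      apply hs
      intro j
      have h2 : (pderiv j T).IsHomogeneous (F.totalDegree - 1) := hTh.pderiv
      refine Pool.Agent.Run7.h490.eval_self_of_dd (pderiv j T) h2 (by omega)
        (fun i => (v i : ℂ)) ?_
      show ∑ i, C (v i : ℂ) * pderiv i (pderiv j T) = 0
      have h3 := congrArg (pderiv j) h0
      rw [map_sum, map_zero] at h3
      rw [← h3]
      refine Finset.sum_congr rfl fun i _ => ?_
      rw [Derivation.leibniz]
      simp only [smul_eq_mul, pderiv_C, mul_zero, add_zero]
      congr 1
      exact pcomm _ _ _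
    apply hv
    funext i
    have := congrFun h1 i
    simp only [Pi.zero_apply] at this
    exact_mod_cast this

/-- **Exponential-algebraic closedness for varieties over hypersurfaces.** -/
theorem result :
    (∀ (n : ℕ) (P : Ideal (MvPolynomial (Fin n ⊕ Fin n) ℂ)) (V : Set (Fin n ⊕ Fin n → ℂ)),
      IsVariety P V → ∀ m : ℕ, n ≤ m → HasDim V m → HypersurfaceBase V →
      -- (A) exponential points are Zariski dense in all translates
      (∀ c : Fin n ⊕ Fin n → ℂ, (∀ i, c (Sum.inr i) ≠ 0) →
        ∀ H : MvPolynomial (Fin n ⊕ Fin n) ℂ, (∃ p ∈ Translate c V, eval p H ≠ 0) →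
        ∃ z : Fin n → ℂ, ExpPoint z ∈ Translate c V ∧ eval (ExpPoint z) H ≠ 0) ∧
      -- (B) on almost all translates they are also generic
      (m = n → ∀ (K : Subfield ℂ) [Countable K], (∃ S : Set (MvPolynomial (Fin n ⊕ Fin n) K),
          P = Ideal.span (MvPolynomial.map (algebraMap K ℂ) '' S)) →
        ∀ᵐ c : Fin n ⊕ Fin n → ℂ, (∀ i, c (Sum.inr i) ≠ 0) ∧
          ∀ H : MvPolynomial (Fin n ⊕ Fin n) ℂ, (∃ p ∈ Translate c V, eval p H ≠ 0) →
          ∃ z : Fin n → ℂ, ExpPoint z ∈ Translate c V ∧ eval (ExpPoint z) H ≠ 0 ∧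
            trdegOver K c z = n)) ∧
    -- (C) hypersurfaces which are smooth at infinity
    (∀ (n : ℕ) (F : MvPolynomial (Fin n) ℂ), 3 ≤ n → 2 ≤ F.totalDegree →
      (∀ x : Fin n → ℂ, (∀ i, eval x (pderiv i (leading F)) = 0) → x = 0) →
      ∀ V : Set (Fin n ⊕ Fin n → ℂ), BaseDim V (n - 1) →
        (∀ x, eval x F = 0 → OnBase V x) → HypersurfaceBase V) ∧
    -- (D) almost all hypersurfaces
    (∀ n d : ℕ, 2 ≤ n → 1 ≤ d → ∀ᵐ a : {m // m ∈ exponents n d} → ℂ,
      ∀ V : Set (Fin n ⊕ Fin n → ℂ), BaseDim V (n - 1) →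
        (∀ x, eval x (poly a) = 0 → OnBase V x) → HypersurfaceBase V) := by
  have hlead1 : ∀ n : ℕ, leading (1 : MvPolynomial (Fin n) ℂ) = 1 := by
    intro n
    unfold leading
    rw [totalDegree_one, homogeneousComponent_zero]
    simp
  refine ⟨?_, ?_, ?_⟩
  · intro n P V hV m hm hd hVL
    have hJ : ∃ J : Finset (Fin n ⊕ Fin n), J.card = n ∧ Indep V J := by
      obtain ⟨J, hJ, hJi⟩ := hd.1
      obtain ⟨J', hJ', hJ'c⟩ := Finset.exists_subset_card_eq (hm.trans hJ.ge)
      exact ⟨J', hJ'c, fun f hf => hJi f (hf.trans hJ')⟩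
    have hA : ∀ c : Fin n ⊕ Fin n → ℂ, (∀ i, c (Sum.inr i) ≠ 0) →
        ∀ H : MvPolynomial (Fin n ⊕ Fin n) ℂ, (∃ p ∈ Translate c V, eval p H ≠ 0) →
        ∃ z : Fin n → ℂ, ExpPoint z ∈ Translate c V ∧ eval (ExpPoint z) H ≠ 0 := by
      intro c hc H hH
      obtain ⟨p, ⟨u, hu, rfl⟩, hp⟩ := hH
      obtain ⟨s, F, g, q, w, hn, hs, hX, hO, hF, hirr, hqw, hqg, hv⟩ := hVL
      have hv' : ∀ v : Fin n → ℚ, v ≠ 0 →
          Pool.Agent.K3h53.UG.dd (fun i => (v i : ℂ)) q ≠ 0 := hv
      obtain ⟨z, hz, hz'⟩ := Pool.Agent.Run7.h490.RR.geAll hn hs P V hV.prime hV.points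
        hV.nonempty hX.1 hX.2 hJ F g q w hO hF hirr hqw hqg hv' c hc H ⟨u, hu, hp⟩
      exact ⟨z, hz, hz'⟩
    refine ⟨hA, fun hmn K _ ⟨S, hS⟩ => ?_⟩
    have hd : HasDim V n := hmn ▸ hd
    have hgen := Pool.Agent.Y563.SE.generic_pts P V hV.prime hV.points hV.nonempty (by
      intro J hJ
      have h1 := hd.2 J hJ
      unfold Indep at h1
      push Not at h1
      obtain ⟨f, h2, h3, h4⟩ := h1
      exact ⟨f, h4, h2, h3⟩) K S hS
    have hne : ∀ᵐ c : Fin n ⊕ Fin n → ℂ, ∀ i : Fin n, c (Sum.inr i) ≠ 0 := by
      rw [ae_all_iff]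
      intro i
      have h1 : (volume : Measure (Fin n ⊕ Fin n → ℂ)) {c | c (Sum.inr i) = 0} = 0 := by
        have h2 : {c : Fin n ⊕ Fin n → ℂ | c (Sum.inr i) = 0} =
            (LinearMap.ker (LinearMap.proj (R := ℝ) (φ := fun _ : Fin n ⊕ Fin n => ℂ)
              (Sum.inr i)) : Set (Fin n ⊕ Fin n → ℂ)) := by
          ext c
          simp
        rw [h2]
        refine Measure.addHaar_submodule _ _ fun h => ?_
        have h3 : (fun _ => (1 : ℂ) : Fin n ⊕ Fin n → ℂ) ∈
            LinearMap.ker (LinearMap.proj (R := ℝ) (φ := fun _ : Fin n ⊕ Fin n => ℂ)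
              (Sum.inr i)) := by
          rw [h]
          trivial
        simp at h3
      rw [ae_iff]
      simpa using h1
    filter_upwards [hgen, hne] with c hc hc'
    refine ⟨hc', fun H hH => ?_⟩
    obtain ⟨z, hz, hz'⟩ := hA c hc' H hH
    exact ⟨z, hz, hz', hc z hz⟩
  · intro n F hn hd hs V hV hx
    obtain ⟨h1, h2⟩ := smooth_infinity hn F hd hs
    refine ⟨n - 1, F, 1, leading F, 1, by omega, by omega, hV, fun x h _ => hx x h,
      (mul_one _).symm, h1, fun h => h1.not_isUnit (isUnit_of_dvd_one h), ?_, h2⟩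
    rw [hlead1]
    exact fun h => h1.not_isUnit (isUnit_of_dvd_one h)
  · intro n d hn hd
    filter_upwards [Pool.Agent.Run7.h490.ae_indep {m // m ∈ exponents n d}] with a ha V hV hx
    have hS : ∀ (i : Fin 1) (m : Fin n →₀ ℕ), m ∈ exponents n d ↔ m.degree ≤ d := by
      intro i m
      unfold exponents
      rw [Finset.mem_biUnion]
      constructor
      · rintro ⟨k, hk, hm⟩
        rw [Finset.mem_finsuppAntidiag] at hm
        rw [Finset.mem_range] at hk
        rw [Finsupp.degree_eq_sum, hm.1]
        omega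
      · intro hm
        refine ⟨m.degree, Finset.mem_range.2 (by omega), ?_⟩
        rw [Finset.mem_finsuppAntidiag]
        exact ⟨(Finsupp.degree_eq_sum m).symm, Finset.subset_univ _⟩
    obtain ⟨a', ha'⟩ : ∃ a' : (Σ _ : Fin 1, {m // m ∈ exponents n d}) → ℂ,
      a' = fun p => a p.2 := ⟨_, rfl⟩
    have hai : AlgebraicIndependent ℚ
        (Sum.elim (fun p => (a' p).re) (fun p => (a' p).im)) := by
      have h1 : (Sum.elim (fun p => (a' p).re) (fun p => (a' p).im)) =
          (Sum.elim (fun p => (a p).re) (fun p => (a p).im)) ∘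
            Sum.map (fun p : (Σ _ : Fin 1, {m // m ∈ exponents n d}) => p.2) (fun p => p.2) := by
        funext p
        rw [ha']
        rcases p with p | p <;> rfl
      rw [h1]
      have hinj : Function.Injective
          (fun p : (Σ _ : Fin 1, {m // m ∈ exponents n d}) => p.2) := by
        rintro ⟨i, m⟩ ⟨j, m'⟩ h
        have hij : i = j := Subsingleton.elim _ _
        subst hij
        have hm : m = m' := h
        rw [hm]
      exact ha.comp _ (Sum.map_injective.2 ⟨hinj, hinj⟩)
    have hac := Pool.Agent.Run7.h490.complex_of_real a' hai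
    obtain ⟨q, u, h1, h2, h3, -, -, h4⟩ := Pool.Agent.Run7.h490.factor_gen (fun _ => d)
      (fun _ => exponents n d) hS hn hd a' hai
    have hlead : leading (poly a) = Pool.Agent.Run7.h490.Hp (fun _ => d)
        (fun _ => exponents n d) a' 0 := by
      unfold leading
      have h5 := Pool.Agent.Run7.h490.totalDegree_Fp (fun _ => d) (fun _ => exponents n d) hS
        ⟨0, by omega⟩ a' (fun p => hac.ne_zero p) 0
      have h6 : poly a = Pool.Agent.Run7.h490.Fp (fun _ => exponents n d) a' 0 := by
        rw [ha']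
        rfl
      rw [h6, h5]
      exact Pool.Agent.Run7.h490.homog_Fp (fun _ => d) _ a' 0
    refine ⟨n - 1, poly a, 1, q, u, by omega, by omega, hV, fun x h _ => hx x h,
      hlead.trans h1, h2, h3, ?_, h4⟩
    rw [hlead1]
    exact fun h6 => h2.not_isUnit (isUnit_of_dvd_one h6)

end Pool.Agent.Results.MP_209724_lc.HypersurfacesAtInfinity
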