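import Pool.Agent.Results.MP_209724_lc.RandomCombinations
import Pool.Agent.Run7.h469.Ns
import Pool.Agent.Run7.h469.Cnt

/-!
# The axiom (SC) for the complex exponential function: integral combinations near a generic subspace, bounded degree

For every `j ≤ n` let `x_{j,1}, …, x_{j,k}` be ARBITRARY complex numbers which are linearly independent over `ℚ` (for different
`j` they may be the same), and for an integral `n × k` matrix `a` let `z_j = ζ_j + a_{j,1} x_{j,1} + ⋯ + a_{j,k} x_{j,k}`, where
`ζ_j` is an arbitrary complex number, for instance `0`. Schanuel's conjecture, the axiom (SC), says that the `2 n` numbers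
`z_1, …, z_n, e^{z_1}, …, e^{z_n}` have transcendence degree at least `n` if the `z_j` are linearly independent.

Theorem. For every degree bound `D` there are `k₀` and `δ > 0`, depending only on `l`, `n` and `D`, such that for all `k ≥ k₀` and
all such `x` one can choose for every `j` one of the two numbers `z_j`, `e^{z_j}` (the choice depends on `x` only) with the
following property. Let `s_1, …, s_l` be numbers which satisfy no nonzero polynomial relation with algebraic coefficients of
degree at most `D` in each of them, `h ≥ 0` and `0 ≤ θ < 1`. (1) For all systems `α` of `h` real `n × k` matrices outside a set of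
Hausdorff dimension at most `n k (h - 1) + (n k - δ k + h) / (1 - θ)` (less than `n k h`, if `h + n k θ < δ k`) and all `A`, for
ALL but finitely many of the integral matrices `a`, for which the distance of `a` to some point `∑ t_l α_l` of the space spanned
by `α` is at most `A (1 + |t|)^θ`, there is no nonzero polynomial relation with algebraic coefficients of degree at most `D` in
each of the numbers between `s_1, …, s_l` and the `n` chosen numbers. (2) If `h ≥ 1` and `h + n k θ < δ k`, then this is true for
almost all `α`.

For instance (`h = 1`, `θ = 0`) for almost all real `n × k` matrices `α` and all large integers `v` the combinations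
`z_j = ζ_j + ∑_i ⌊v α_{j,i}⌋ x_{j,i}` have this property. The dimension `h` of the subspaces can be large, up to `δ k`. As `A` is
arbitrary, the same holds for the integral matrices near the affine subspaces parallel to the given one.

The starting theorem `RandomCombinations` of this problem shows that for an arbitrary finite set `X` of rational numbers this is
true for all but `C |X|^(n k - δ k)` of the matrices with entries in `X`. For `X = {-T, …, T}` and fixed `k` this is a power saving,
by the power `δ k` of `T`, and this power is larger than the dimension `h`. A covering argument (`Pool.Agent.N251.LF.Tuples` of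
the starting library, where it is applied to tuples of integers) bounds the dimension of the exceptional set of `α`.
-/

set_option autoImplicit false

namespace Pool.Agent.Results.MP_209724_lc.NearGenericSubspaces

open Module MeasureTheory
open Run7.h469.Ns (Near NearSubspaces NearAlmostAll near_rat near_int)
open Pool.Agent.Results.MP_209724_lc.RandomCombinations (NoRelation comb)

/-- **Combinations near generic subspaces.** There are `k₀` and `δ > 0`, depending only on `l`, `n` and `D`, such that for
all `k ≥ k₀` and all `x` as in the theorem `RandomCombinations` there is a choice `c` of `z_j` (`c j = true`) or `e^{z_j}` for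
every `j`, such that for all `h`, `0 ≤ θ < 1`, all `s` without relation of degree at most `D` and all `ζ`: (1) for all systems `α`
of `h` real `n × k` matrices outside a set of dimension at most `n k (h - 1) + (n k - δ k + h) / (1 - θ)`, for all `A`, for all but
finitely many of the integral matrices `a` within `A (1 + |t|)^θ` of some point `∑ t_l α_l` of the space spanned by `α` the
numbers `s` and the `n` chosen numbers have no relation of degree at most `D`; (2) if `h ≥ 1` and `h + n k θ < δ k`, then this is
true for almost all `α`. -/
theorem result (l n D : ℕ) (hn : 1 ≤ n) : ∃ (k₀ : ℕ) (δ : ℝ), 0 < δ ∧ ∀ k ≥ k₀, ∀ x : Fin n → Fin k → ℂ,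
    (∀ j, LinearIndependent ℚ (x j)) → ∃ c : Fin n → Bool, ∀ (h : ℕ) (θ : ℝ), 0 ≤ θ → θ < 1 →
    ∀ s : Fin l → ℂ, NoRelation D s → ∀ ζ : Fin n → ℂ,
      NearSubspaces n k h ((n : ℝ) * k * (h - 1) + (n * k - δ * k + h) / (1 - θ)) θ
        (fun a => NoRelation D (Sum.elim s (fun j => if c j = true then comb ζ x (fun j i => (a j i : ℚ)) j
          else Complex.exp (comb ζ x (fun j i => (a j i : ℚ)) j)))) ∧
      (1 ≤ h → (h : ℝ) + n * k * θ < δ * k → NearAlmostAll n k h θ
        (fun a => NoRelation D (Sum.elim s (fun j => if c j = true then comb ζ x (fun j i => (a j i : ℚ)) j
          else Complex.exp (comb ζ x (fun j i => (a j i : ℚ)) j))))) := by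
  obtain ⟨k₀, C, δ, hδ, hR⟩ := Pool.Agent.Results.MP_209724_lc.RandomCombinations.result l n D
  refine ⟨max k₀ 1, min δ 1, lt_min hδ one_pos, fun k hk x hx => ?_⟩
  have hk1 : 1 ≤ k := (le_max_right _ _).trans hk
  have hk0 : k ≥ k₀ := (le_max_left _ _).trans hk
  obtain ⟨c, hc⟩ := hR k hk0 x hx
  refine ⟨c, fun h θ hθ0 hθ s hs ζ => ?_⟩
  exact near_rat h hn hk1 (fun a => NoRelation D (Sum.elim s (fun j => if c j = true then comb ζ x a j
      else Complex.exp (comb ζ x a j)))) (Nat.cast_nonneg C)
    (fun X hX => by
      refine le_of_eq_of_le ?_ (hc X hX s hs ζ)
      congr!) hθ0 hθ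

end Pool.Agent.Results.MP_209724_lc.NearGenericSubspaces
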