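import Pool.Agent.Run7.h490.OD7
import Pool.Agent.Run7.h490.OD9
import Pool.Agent.Y563.SE.Main

/-!
# Axiom (SEAC) (i) in the complex exponential field: complete intersections of odd degrees

`G_n = ℂ^n × (ℂ^*)^n`; its elements are functions on `Fin n ⊕ Fin n` (`Sum.inl`: the coordinates
`x`, `Sum.inr`: the coordinates `y`).  The exponential points are the points `(z, e^z)`.

Let `h_1, ..., h_r` be forms of odd degrees in `n ≥ 2 r` variables, in general position
(`GeneralPosition`): the coordinates of a common zero `z ≠ 0` in `ℂ^n` span a vector space over `ℚ`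
of dimension at least `r + 1`, and those of a real common zero `x ≠ 0` one of dimension at least
`2 r + 1`. Let `V ⊆ G_n` be an irreducible variety of dimension at least `n`, and `X` the Zariski
closure of its projection to `ℂ^n`. Suppose (`OddAtInfinity`) that `X` has codimension `r` and
contains all points with `F_1 = ... = F_r = 0`, `g ≠ 0`, where the leading forms of the `F_i` vanish
on the cone `Y = {h_1 = ... = h_r = 0}`, and the points of `Y` at which they have independent
gradients and the leading form of `g` is not zero are dense in `Y` (for example: the `h_i` are the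
leading forms of the `F_i`, `g = 1`, and `Y` is nonsingular outside the origin).

(A) Every translate `c V` contains exponential points, and they are Zariski dense in `c V`.

(B) If `dim V = n` and `V` is defined over a countable field `K` then on almost all translates `c V` the
exponential points are generic: they have transcendence degree `n = dim V` over `K(c)`, and they are
Zariski dense.

(C) Let `F_1, ..., F_r`, `2 r ≤ n`, be polynomials of odd degrees `d_1, ..., d_r` with coefficients
whose real and imaginary parts are algebraically independent over `ℚ`. If `X` has codimension `r`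
and contains the zero set of the `F_i` then `V` satisfies `OddAtInfinity`. In particular this holds
for almost all polynomials of these degrees.

So (SEAC) (i) holds for all varieties of dimension `≥ n` over almost all hypersurfaces of odd degree in
`ℂ^n`, `n ≥ 2`, and over almost all complete intersections of odd degrees and dimension `≥ n / 2`.

Proof of (A).  As in the starting hand-in `LinearSpacesAtInfinity` there is for `dim V = n` a
direction `w ∈ ℝ^n` and a set `B` of `r` coordinates, `w_j = ∑ σ_jb w_b` with `w_b`, `b ∈ B`,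
linearly independent over `ℚ`, so that for `Re x_B ≈ R w_B`, `R → ∞`, the `y_j`, `j ∉ B`, are given
by a branch with `log |y_j| = ∑ σ_jb Re x_b + O(log R)`. We need a point `ξ ∈ Y` with
`ξ_j - ∑ σ_jb ξ_b` purely imaginary and `Re ξ_b` near `w_b`. This is a system of `2 r` real equations
`h_i (ξ) = 0` on the affine space `i ℝ^n + (w + Q)`. By the theorem of Borsuk and Ulam, the odd forms
`h_i` have a zero `ξ ≠ 0` in `i ℝ^s ⊕ ℂ^r ⊇ {ξ_j - ∑ σ_jb ξ_b ∈ i ℝ}` with given
ratios of the real parts `Re ξ_b`, since `s ≥ r`. General position shows that the real parts do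
not vanish, and that `Y` is transversal to the space `ξ_j = ∑ σ_jb ξ_b` at suitable `ξ`: otherwise
`Y` has a nonzero point of rational rank `≤ r`, or a real one of rational rank `≤ 2 r`. Near `R ξ`
the variety `X` is the graph of a function of `l = x_j - ∑ σ_jb x_b`, and the equations
`x_j = log y_j + 2 π i N_j` are solved there by a fixed point argument.

Parts of the proof are in starting files: the folders `UG` and `E8` named in the hand-in
`LinearSpacesAtInfinity`, `Pool.Agent.Helper133.BULib` (Borsuk and Ulam), `Pool.Agent.H135R2`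
(derivations), `Pool.Agent.H552R3.Tsen`, `Pool.Agent.K3h68.ET.GENA`.
-/

set_option autoImplicit false

open MvPolynomial MeasureTheory

namespace Pool.Agent.Results.MP_209724_lc.OddCompleteIntersections

/-- `V` is the set of points of `G_n = ℂ^n × (ℂ^*)^n` on which the prime ideal `P` vanishes: an
irreducible subvariety. -/
structure IsVariety {n : ℕ} (P : Ideal (MvPolynomial (Fin n ⊕ Fin n) ℂ))
    (V : Set (Fin n ⊕ Fin n → ℂ)) : Prop where
  prime : P.IsPrime
  points : V = {p | (∀ f ∈ P, eval p f = 0) ∧ ∀ j : Fin n, p (Sum.inr j) ≠ 0}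
  nonempty : V.Nonempty

/-- the coordinates with index in `J` are algebraically independent on `V` -/
def Indep {n : ℕ} (V : Set (Fin n ⊕ Fin n → ℂ)) (J : Finset (Fin n ⊕ Fin n)) : Prop :=
  ∀ f : MvPolynomial (Fin n ⊕ Fin n) ℂ, f.vars ⊆ J → (∀ p ∈ V, eval p f = 0) → f = 0

/-- `dim V = d`: the largest number of algebraically independent coordinates is `d` -/
def HasDim {n : ℕ} (V : Set (Fin n ⊕ Fin n → ℂ)) (d : ℕ) : Prop :=
  (∃ J, J.card = d ∧ Indep V J) ∧ ∀ J, J.card = d + 1 → ¬ Indep V J

/-- the coordinates `x_i`, `i ∈ K`, are algebraically independent on `V` -/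
def XIndep {n : ℕ} (V : Set (Fin n ⊕ Fin n → ℂ)) (K : Finset (Fin n)) : Prop :=
  ∀ G : MvPolynomial (Fin n) ℂ, G.vars ⊆ K →
    (∀ u ∈ V, eval (fun i => u (Sum.inl i)) G = 0) → G = 0

/-- the Zariski closure `X` of the projection of `V` to `ℂ^n` has dimension `s` -/
def BaseDim {n : ℕ} (V : Set (Fin n ⊕ Fin n → ℂ)) (s : ℕ) : Prop :=
  (∃ K, K.card = s ∧ XIndep V K) ∧ ∀ K, K.card = s + 1 → ¬ XIndep V K

/-- the point `x` lies in the Zariski closure `X` of the projection of `V` to `ℂ^n` -/
def OnBase {n : ℕ} (V : Set (Fin n ⊕ Fin n → ℂ)) (x : Fin n → ℂ) : Prop :=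
  ∀ G : MvPolynomial (Fin n) ℂ, (∀ u ∈ V, eval (fun i => u (Sum.inl i)) G = 0) → eval x G = 0

/-- the leading form of a polynomial -/
noncomputable def leading {n : ℕ} (q : MvPolynomial (Fin n) ℂ) : MvPolynomial (Fin n) ℂ :=
  homogeneousComponent q.totalDegree q

/-- the common zeros of `h_1, ..., h_r` -/
def Zeros {n r : ℕ} (h : Fin r → MvPolynomial (Fin n) ℂ) : Set (Fin n → ℂ) :=
  {z | ∀ i, eval z (h i) = 0}

/-- the coordinates of a nonzero common zero of `h_1, ..., h_r` span a rational vector space of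
dimension at least `r + 1`, and those of a nonzero real one at least `2 r + 1` -/
structure GeneralPosition {n r : ℕ} (h : Fin r → MvPolynomial (Fin n) ℂ) : Prop where
  complex : ∀ z ∈ Zeros h, z ≠ 0 →
    r + 1 ≤ Module.finrank ℚ (Submodule.span ℚ (Set.range z))
  real : ∀ x : Fin n → ℝ, (fun i => (x i : ℂ)) ∈ Zeros h → x ≠ 0 →
    2 * r + 1 ≤ Module.finrank ℚ (Submodule.span ℚ (Set.range x))

/-- `X`, the Zariski closure of the projection of `V` to `ℂ^n`, has codimension `r` and dimension
`s ≥ r ≥ 1`, and it contains at infinity the cone `Y` of zeros of forms `h_1, ..., h_r` of odd degrees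
in general position: it contains the points with `F_1 = ... = F_r = 0`, `g ≠ 0`; the leading forms of
the `F_i` vanish on `Y`; the points of `Y` where these have independent gradients and the leading
form of `g` does not vanish are dense in `Y` -/
def OddAtInfinity {n : ℕ} (V : Set (Fin n ⊕ Fin n → ℂ)) : Prop :=
  ∃ (s r : ℕ) (h : Fin r → MvPolynomial (Fin n) ℂ) (d : Fin r → ℕ)
    (F : Fin r → MvPolynomial (Fin n) ℂ) (g : MvPolynomial (Fin n) ℂ),
    n = s + r ∧ 1 ≤ r ∧ r ≤ s ∧ BaseDim V s ∧
    (∀ i, (h i).IsHomogeneous (d i) ∧ Odd (d i)) ∧ GeneralPosition h ∧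
    (∀ x, (∀ i, eval x (F i) = 0) → eval x g ≠ 0 → OnBase V x) ∧
    (∀ i, ∀ z ∈ Zeros h, eval z (leading (F i)) = 0) ∧
    ∀ z ∈ Zeros h, z ∈ closure {z' | z' ∈ Zeros h ∧
      (LinearIndependent ℂ fun i j => eval z' (pderiv j (leading (F i)))) ∧
      eval z' (leading g) ≠ 0}

/-- the exponents of the monomials of degree at most `d` in `n` variables -/
def exponents (n d : ℕ) : Finset (Fin n →₀ ℕ) :=
  (Finset.range (d + 1)).biUnion fun k => Finset.finsuppAntidiag Finset.univ k

/-- the polynomial `F_i` of degree at most `d_i` with the coefficients `a (i, m)` -/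
noncomputable def poly {n r : ℕ} (d : Fin r → ℕ)
    (a : (Σ i : Fin r, {m // m ∈ exponents n (d i)}) → ℂ) (i : Fin r) : MvPolynomial (Fin n) ℂ :=
  ∑ m : {m // m ∈ exponents n (d i)}, monomial m.1 (a ⟨i, m⟩)

/-- the translate `c V` -/
def Translate {n : ℕ} (c : Fin n ⊕ Fin n → ℂ) (V : Set (Fin n ⊕ Fin n → ℂ)) :
    Set (Fin n ⊕ Fin n → ℂ) :=
  {p | ∃ u ∈ V, p = Sum.elim (fun i => u (Sum.inl i) + c (Sum.inl i))
    (fun i => c (Sum.inr i) * u (Sum.inr i))}

/-- the exponential point `(z, e^z)` -/
noncomputable def ExpPoint {n : ℕ} (z : Fin n → ℂ) : Fin n ⊕ Fin n → ℂ :=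
  Sum.elim z (fun i => Complex.exp (z i))

/-- `tr.deg_{K(c)} K(c)(z, e^z)` -/
noncomputable def trdegOver {n : ℕ} (K : Subfield ℂ) (c : Fin n ⊕ Fin n → ℂ) (z : Fin n → ℂ) :
    Cardinal :=
  Algebra.trdeg (IntermediateField.adjoin K (Set.range c))
    (IntermediateField.adjoin (IntermediateField.adjoin K (Set.range c)) (Set.range (ExpPoint z)))

/-- **Exponential-algebraic closedness for varieties over bases which contain a complete
intersection of odd degrees, of dimension at least `n / 2` and in general position, at infinity.** -/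
theorem result :
    (∀ (n : ℕ) (P : Ideal (MvPolynomial (Fin n ⊕ Fin n) ℂ)) (V : Set (Fin n ⊕ Fin n → ℂ)),
      IsVariety P V → ∀ m : ℕ, n ≤ m → HasDim V m → OddAtInfinity V →
      -- (A) exponential points are Zariski dense in all translates
      (∀ c : Fin n ⊕ Fin n → ℂ, (∀ i, c (Sum.inr i) ≠ 0) →
        ∀ H : MvPolynomial (Fin n ⊕ Fin n) ℂ, (∃ p ∈ Translate c V, eval p H ≠ 0) →
        ∃ z : Fin n → ℂ, ExpPoint z ∈ Translate c V ∧ eval (ExpPoint z) H ≠ 0) ∧
      -- (B) on almost all translates they are also generic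
      (m = n → ∀ (K : Subfield ℂ) [Countable K], (∃ S : Set (MvPolynomial (Fin n ⊕ Fin n) K),
          P = Ideal.span (MvPolynomial.map (algebraMap K ℂ) '' S)) →
        ∀ᵐ c : Fin n ⊕ Fin n → ℂ, (∀ i, c (Sum.inr i) ≠ 0) ∧
          ∀ H : MvPolynomial (Fin n ⊕ Fin n) ℂ, (∃ p ∈ Translate c V, eval p H ≠ 0) →
          ∃ z : Fin n → ℂ, ExpPoint z ∈ Translate c V ∧ eval (ExpPoint z) H ≠ 0 ∧
            trdegOver K c z = n)) ∧
    -- (C) polynomials of odd degrees with algebraically independent coefficients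
    (∀ (n r : ℕ) (d : Fin r → ℕ), 1 ≤ r → 2 * r ≤ n → (∀ i, Odd (d i)) →
      ∀ a : (Σ i : Fin r, {m // m ∈ exponents n (d i)}) → ℂ,
      AlgebraicIndependent ℚ (Sum.elim (fun p => (a p).re) (fun p => (a p).im)) →
      ∀ V : Set (Fin n ⊕ Fin n → ℂ), BaseDim V (n - r) →
        (∀ x, (∀ i, eval x (poly d a i) = 0) → OnBase V x) → OddAtInfinity V) ∧
    -- (C) almost all polynomials of odd degrees
    (∀ (n r : ℕ) (d : Fin r → ℕ), 1 ≤ r → 2 * r ≤ n → (∀ i, Odd (d i)) →
      ∀ᵐ a : (Σ i : Fin r, {m // m ∈ exponents n (d i)}) → ℂ,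
      ∀ V : Set (Fin n ⊕ Fin n → ℂ), BaseDim V (n - r) →
        (∀ x, (∀ i, eval x (poly d a i) = 0) → OnBase V x) → OddAtInfinity V) := by
  have hC : ∀ (n r : ℕ) (d : Fin r → ℕ), 1 ≤ r → 2 * r ≤ n → (∀ i, Odd (d i)) →
      ∀ a : (Σ i : Fin r, {m // m ∈ exponents n (d i)}) → ℂ,
      AlgebraicIndependent ℚ (Sum.elim (fun p => (a p).re) (fun p => (a p).im)) →
      ∀ V : Set (Fin n ⊕ Fin n → ℂ), BaseDim V (n - r) →
        (∀ x, (∀ i, eval x (poly d a i) = 0) → OnBase V x) → OddAtInfinity V := by
    intro n r d hr hn hd a ha V hV hx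
    have hS : ∀ (i : Fin r) (m : Fin n →₀ ℕ), m ∈ exponents n (d i) ↔ m.degree ≤ d i := by
      intro i m
      unfold exponents
      rw [Finset.mem_biUnion]
      constructor
      · rintro ⟨k, hk, hm⟩
        rw [Finset.mem_finsuppAntidiag] at hm
        rw [Finset.mem_range] at hk
        rw [Finsupp.degree_eq_sum, hm.1]
        omega
      · intro hm
        refine ⟨m.degree, Finset.mem_range.2 (by omega), ?_⟩
        rw [Finset.mem_finsuppAntidiag]
        exact ⟨(Finsupp.degree_eq_sum m).symm, Finset.subset_univ _⟩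
    have hac := Pool.Agent.Run7.h490.complex_of_real a ha
    have hd1 : ∀ i, 1 ≤ d i := fun i => (hd i).pos
    have hlead : ∀ i, leading (poly d a i) =
        Pool.Agent.Run7.h490.Hp d (fun i => exponents n (d i)) a i := by
      intro i
      unfold leading
      have h1 := Pool.Agent.Run7.h490.totalDegree_Fp d (fun i => exponents n (d i)) hS
        ⟨0, by omega⟩ a (fun p => hac.ne_zero p) i
      have h2 : poly d a i = Pool.Agent.Run7.h490.Fp (fun i => exponents n (d i)) a i := rfl
      rw [h2, h1]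
      exact Pool.Agent.Run7.h490.homog_Fp d _ a i
    refine ⟨n - r, r, fun i => Pool.Agent.Run7.h490.Hp d (fun i => exponents n (d i)) a i, d,
      poly d a, 1, by omega, hr, by omega, hV, fun i =>
        ⟨Pool.Agent.Run7.h490.Hp_homog d _ a i, hd i⟩, ⟨?_, ?_⟩, fun x h1 _ => hx x h1, ?_, ?_⟩
    · intro z hz hz0
      exact Pool.Agent.Run7.h490.cond_complex d _ hS a hac hr z hz0 hz
    · intro x hz hz0
      exact Pool.Agent.Run7.h490.cond_real d _ hS a ha hr x hz0 hz
    · intro i z hz
      rw [hlead i]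
      exact hz i
    · intro z hz
      have h1 := Pool.Agent.Run7.h490.cond_dense d _ hS (by omega) hd1 a hac z hz
      have h2 : leading (1 : MvPolynomial (Fin n) ℂ) = 1 := by
        unfold leading
        rw [totalDegree_one, homogeneousComponent_zero]
        simp
      simp only [hlead, h2, map_one]
      refine closure_mono ?_ h1
      rintro z' ⟨h3, h4⟩
      exact ⟨h3, h4, one_ne_zero⟩
  refine ⟨?_, hC, ?_⟩
  · intro n P V hV m hm hd hVL
    have hJ : ∃ J : Finset (Fin n ⊕ Fin n), J.card = n ∧ Indep V J := by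
      obtain ⟨J, hJ, hJi⟩ := hd.1
      obtain ⟨J', hJ', hJ'c⟩ := Finset.exists_subset_card_eq (hm.trans hJ.ge)
      exact ⟨J', hJ'c, fun f hf => hJi f (hf.trans hJ')⟩
    have hA : ∀ c : Fin n ⊕ Fin n → ℂ, (∀ i, c (Sum.inr i) ≠ 0) →
        ∀ H : MvPolynomial (Fin n ⊕ Fin n) ℂ, (∃ p ∈ Translate c V, eval p H ≠ 0) →
        ∃ z : Fin n → ℂ, ExpPoint z ∈ Translate c V ∧ eval (ExpPoint z) H ≠ 0 := by
      intro c hc H hH
      obtain ⟨p, ⟨u, hu, rfl⟩, hp⟩ := hH
      obtain ⟨s, r, h, d, F, g, hn, hr, hsr, hX, hh, hG, hO, hv, hden⟩ := hVL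
      obtain ⟨z, hz, hz'⟩ := Pool.Agent.Run7.h490.geOdd hn hsr hr P V hV.prime hV.points
        hV.nonempty hX.1 hX.2 hJ F g hO h d (fun i => (hh i).1) (fun i => (hh i).2)
        (fun z hz hz0 => hG.complex z hz0 hz) (fun x hx hx0 => hG.real x hx0 hx)
        (fun z hz i => hv i z hz) hden c hc H ⟨u, hu, hp⟩
      exact ⟨z, hz, hz'⟩
    refine ⟨hA, fun hmn K _ ⟨S, hS⟩ => ?_⟩
    have hd : HasDim V n := hmn ▸ hd
    have hgen := Pool.Agent.Y563.SE.generic_pts P V hV.prime hV.points hV.nonempty (by
      intro J hJ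
      have h1 := hd.2 J hJ
      unfold Indep at h1
      push Not at h1
      obtain ⟨f, h2, h3, h4⟩ := h1
      exact ⟨f, h4, h2, h3⟩) K S hS
    have hne : ∀ᵐ c : Fin n ⊕ Fin n → ℂ, ∀ i : Fin n, c (Sum.inr i) ≠ 0 := by
      rw [ae_all_iff]
      intro i
      have h1 : (volume : Measure (Fin n ⊕ Fin n → ℂ)) {c | c (Sum.inr i) = 0} = 0 := by
        have h2 : {c : Fin n ⊕ Fin n → ℂ | c (Sum.inr i) = 0} =
            (LinearMap.ker (LinearMap.proj (R := ℝ) (φ := fun _ : Fin n ⊕ Fin n => ℂ)
              (Sum.inr i)) : Set (Fin n ⊕ Fin n → ℂ)) := by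
          ext c
          simp
        rw [h2]
        refine Measure.addHaar_submodule _ _ fun h => ?_
        have h3 : (fun _ => (1 : ℂ) : Fin n ⊕ Fin n → ℂ) ∈
            LinearMap.ker (LinearMap.proj (R := ℝ) (φ := fun _ : Fin n ⊕ Fin n => ℂ)
              (Sum.inr i)) := by
          rw [h]
          trivial
        simp at h3
      rw [ae_iff]
      simpa using h1
    filter_upwards [hgen, hne] with c hc hc'
    refine ⟨hc', fun H hH => ?_⟩
    obtain ⟨z, hz, hz'⟩ := hA c hc' H hH
    exact ⟨z, hz, hz', hc z hz⟩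
  · intro n r d hr hn hd
    filter_upwards [Pool.Agent.Run7.h490.ae_indep (Σ i : Fin r, {m // m ∈ exponents n (d i)})]
      with a ha
    exact hC n r d hr hn hd a ha

end Pool.Agent.Results.MP_209724_lc.OddCompleteIntersections
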