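import Pool.Agent.Run7.h490.GR3
import Pool.Agent.Run7.h490.OD9
import Pool.Agent.Y563.SE.Main

/-!
# The geometric part of axiom (SEAC) (i) in the complex exponential field: varieties over graphs
of polynomials

`G_n = ℂ^n × (ℂ^*)^n`; its elements are functions on `Fin n ⊕ Fin n` (`Sum.inl`: the coordinates
`x`, `Sum.inr`: the coordinates `y`).  The exponential points are the points `(z, e^z)`.

Let `J` be an index and `p` a polynomial of degree `d ≥ 2` in the `n - 1` variables `x_i`, `i ≠ J`, with
the leading form `P`. Let `V ⊆ G_n` be an irreducible variety on which `x_J = p (x)`, and suppose that on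
`V` the coordinates `x_i`, `i ≠ J`, and some `y_k`, `k ≠ J`, are algebraically independent (so
`dim V ≥ n`; this holds for all `V` of dimension `≥ n` with the graph of `p` as the closure of the
projection to `ℂ^n`, except for those where all `y_k`, `k ≠ J`, are algebraic functions of `x`).
The exponential points of `V` are the solutions `z` of systems of exponential polynomial equations in
which the exponentials `e^{z_i}` and `e^{p (z)}` occur.

`p` is called admissible if for every `v ∈ ℚ^n`, `v ≠ 0`, `v_J = 0`: either `∂_v ∂_v P ≠ 0`, or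
`∂_v P ≠ 0` and `i^{d-1} P` takes a value which is not real at some real point.

(A) If `p` is admissible then every translate `c V` contains exponential points, and they are Zariski
dense in `c V`.

(B) If moreover `dim V = n` and `V` is defined over a countable field `K` then on almost all translates
`c V` the exponential points are generic: they have transcendence degree `n = dim V` over `K(c)`, and
they are Zariski dense.

(C) `p` is admissible if `P` has no rational zeros, if `d ≥ 3` and `P` is smooth, if `d` is even, `P` is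
real and it is not a form in fewer variables over `ℚ`; almost all `p` of degree `d ≥ 2` are admissible.

The leading form of `x_J - p` is a form in fewer variables: the graph of `p` is at infinity a cone with
the rational vertex `e_J`, so that this case is disjoint from the case of the hand-in
`HypersurfacesAtInfinity`; here the sizes of `x_J` and of the other coordinates are different.

Proof of (A).  Let `x_J = p (x)`. On a branch at infinity of the fibres of `V` over the graph
`log |y_j| = v_j T + O(log |x|)`. The equations are solved near points `i R e + τ v` with a real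
vector `e` and with `v_J` removed, where `τ` is chosen such that the real part of `p (i R e + τ v)` is
`v_J τ`, up to lower order terms: the polynomial `H (τ) = p (i R e + τ v)` takes all values there.
The existence of such a `τ` with real part of the order `R` or larger is the statement that
the curve `Re H (τ) = v_J Re τ` meets the half plane `Re τ > 0` far away from `0`; this is
guaranteed by the admissibility. The criterion for weighted degrees used then is in the starting folder
`Pool.Agent.K3h53.UG` (`geCrit`).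
-/

set_option autoImplicit false

open MvPolynomial MeasureTheory

namespace Pool.Agent.Results.MP_209724_lc.PolynomialGraphs

/-- `V` is the set of points of `G_n = ℂ^n × (ℂ^*)^n` on which the prime ideal `P` vanishes: an
irreducible subvariety. -/
structure IsVariety {n : ℕ} (P : Ideal (MvPolynomial (Fin n ⊕ Fin n) ℂ))
    (V : Set (Fin n ⊕ Fin n → ℂ)) : Prop where
  prime : P.IsPrime
  points : V = {p | (∀ f ∈ P, eval p f = 0) ∧ ∀ j : Fin n, p (Sum.inr j) ≠ 0}
  nonempty : V.Nonempty

/-- the coordinates with index in `J` are algebraically independent on `V` -/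
def Indep {n : ℕ} (V : Set (Fin n ⊕ Fin n → ℂ)) (J : Finset (Fin n ⊕ Fin n)) : Prop :=
  ∀ f : MvPolynomial (Fin n ⊕ Fin n) ℂ, f.vars ⊆ J → (∀ p ∈ V, eval p f = 0) → f = 0

/-- `dim V = d`: the largest number of algebraically independent coordinates is `d` -/
def HasDim {n : ℕ} (V : Set (Fin n ⊕ Fin n → ℂ)) (d : ℕ) : Prop :=
  (∃ J, J.card = d ∧ Indep V J) ∧ ∀ J, J.card = d + 1 → ¬ Indep V J

/-- the leading form of a polynomial -/
noncomputable def leading {n : ℕ} (q : MvPolynomial (Fin n) ℂ) : MvPolynomial (Fin n) ℂ :=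
  homogeneousComponent q.totalDegree q

/-- the derivative in the direction of the rational vector `v` -/
noncomputable def D {n : ℕ} (v : Fin n → ℚ) (q : MvPolynomial (Fin n) ℂ) :
    MvPolynomial (Fin n) ℂ :=
  ∑ i, C (v i : ℂ) * pderiv i q

/-- admissible polynomials -/
def Admissible {n : ℕ} (J : Fin n) (p : MvPolynomial (Fin n) ℂ) : Prop :=
  J ∉ p.vars ∧ 2 ≤ p.totalDegree ∧ ∀ v : Fin n → ℚ, v ≠ 0 → v J = 0 →
    D v (D v (leading p)) ≠ 0 ∨ (D v (leading p) ≠ 0 ∧
      ∃ x : Fin n → ℝ, (Complex.I ^ (p.totalDegree - 1) *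
        eval (fun i => (x i : ℂ)) (leading p)).im ≠ 0)

/-- the exponents of the monomials of degree at most `d` in the variables with index `≠ J` -/
def exponents (n d : ℕ) (J : Fin n) : Finset (Fin n →₀ ℕ) :=
  ((Finset.range (d + 1)).biUnion fun k => Finset.finsuppAntidiag Finset.univ k).filter
    fun m => m J = 0

/-- the polynomial of degree at most `d` with the coefficients `a m` -/
noncomputable def poly {n d : ℕ} (J : Fin n) (a : {m // m ∈ exponents n d J} → ℂ) :
    MvPolynomial (Fin n) ℂ :=
  ∑ m : {m // m ∈ exponents n d J}, monomial m.1 (a m)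

/-- the translate `c V` -/
def Translate {n : ℕ} (c : Fin n ⊕ Fin n → ℂ) (V : Set (Fin n ⊕ Fin n → ℂ)) :
    Set (Fin n ⊕ Fin n → ℂ) :=
  {p | ∃ u ∈ V, p = Sum.elim (fun i => u (Sum.inl i) + c (Sum.inl i))
    (fun i => c (Sum.inr i) * u (Sum.inr i))}

/-- the exponential point `(z, e^z)` -/
noncomputable def ExpPoint {n : ℕ} (z : Fin n → ℂ) : Fin n ⊕ Fin n → ℂ :=
  Sum.elim z (fun i => Complex.exp (z i))

/-- `tr.deg_{K(c)} K(c)(z, e^z)` -/
noncomputable def trdegOver {n : ℕ} (K : Subfield ℂ) (c : Fin n ⊕ Fin n → ℂ) (z : Fin n → ℂ) :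
    Cardinal :=
  Algebra.trdeg (IntermediateField.adjoin K (Set.range c))
    (IntermediateField.adjoin (IntermediateField.adjoin K (Set.range c)) (Set.range (ExpPoint z)))

/-- **Exponential-algebraic closedness for varieties over graphs of polynomials.** -/
theorem result :
    (∀ (n : ℕ) (J : Fin n) (p : MvPolynomial (Fin n) ℂ), Admissible J p →
      ∀ (P : Ideal (MvPolynomial (Fin n ⊕ Fin n) ℂ)) (V : Set (Fin n ⊕ Fin n → ℂ)),
      IsVariety P V → (∀ u ∈ V, u (Sum.inl J) = eval (fun i => u (Sum.inl i)) p) →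
      (∃ k, k ≠ J ∧ Indep V (insert (Sum.inr k) ((Finset.univ.erase J).image Sum.inl))) →
      -- (A) exponential points are Zariski dense in all translates
      (∀ c : Fin n ⊕ Fin n → ℂ, (∀ i, c (Sum.inr i) ≠ 0) →
        ∀ H : MvPolynomial (Fin n ⊕ Fin n) ℂ, (∃ q ∈ Translate c V, eval q H ≠ 0) →
        ∃ z : Fin n → ℂ, ExpPoint z ∈ Translate c V ∧ eval (ExpPoint z) H ≠ 0) ∧
      -- (B) on almost all translates they are also generic
      (HasDim V n → ∀ (K : Subfield ℂ) [Countable K], (∃ S : Set (MvPolynomial (Fin n ⊕ Fin n) K),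
          P = Ideal.span (MvPolynomial.map (algebraMap K ℂ) '' S)) →
        ∀ᵐ c : Fin n ⊕ Fin n → ℂ, (∀ i, c (Sum.inr i) ≠ 0) ∧
          ∀ H : MvPolynomial (Fin n ⊕ Fin n) ℂ, (∃ q ∈ Translate c V, eval q H ≠ 0) →
          ∃ z : Fin n → ℂ, ExpPoint z ∈ Translate c V ∧ eval (ExpPoint z) H ≠ 0 ∧
            trdegOver K c z = n)) ∧
    -- (C1) leading forms without rational zeros
    (∀ (n : ℕ) (J : Fin n) (p : MvPolynomial (Fin n) ℂ), J ∉ p.vars → 2 ≤ p.totalDegree →
      (∀ v : Fin n → ℚ, v ≠ 0 → v J = 0 → eval (fun i => (v i : ℂ)) (leading p) ≠ 0) →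
      Admissible J p) ∧
    -- (C2) smooth leading forms of degree at least three
    (∀ (n : ℕ) (J : Fin n) (p : MvPolynomial (Fin n) ℂ), J ∉ p.vars → 3 ≤ p.totalDegree →
      (∀ x : Fin n → ℂ, x J = 0 → (∀ i, eval x (pderiv i (leading p)) = 0) → x = 0) →
      Admissible J p) ∧
    -- (C3) real leading forms of even degree
    (∀ (n : ℕ) (J : Fin n) (p : MvPolynomial (Fin n) ℂ), J ∉ p.vars → 2 ≤ p.totalDegree →
      Even p.totalDegree →
      (∀ x : Fin n → ℝ, (eval (fun i => (x i : ℂ)) (leading p)).im = 0) →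
      (∀ v : Fin n → ℚ, v ≠ 0 → v J = 0 → D v (leading p) ≠ 0) → Admissible J p) ∧
    -- (C4) almost all polynomials
    (∀ (n d : ℕ) (J : Fin n), 2 ≤ n → 2 ≤ d → ∀ᵐ a : {m // m ∈ exponents n d J} → ℂ,
      (poly J a).totalDegree = d ∧ Admissible J (poly J a)) := by
  have hlead : ∀ {n : ℕ} (q : MvPolynomial (Fin n) ℂ), (leading q).IsHomogeneous q.totalDegree :=
    fun q => homogeneousComponent_isHomogeneous _ _
  have hC1 : ∀ (n : ℕ) (J : Fin n) (p : MvPolynomial (Fin n) ℂ), J ∉ p.vars →
      2 ≤ p.totalDegree →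
      (∀ v : Fin n → ℚ, v ≠ 0 → v J = 0 → eval (fun i => (v i : ℂ)) (leading p) ≠ 0) →
      Admissible J p := fun n J p hJ hd h => ⟨hJ, hd, fun v hv hvJ =>
    Or.inl (Pool.Agent.Run7.h490.adm_of_ne (leading p) (hlead p) hd (fun i => (v i : ℂ))
      (h v hv hvJ))⟩
  refine ⟨?_, hC1, ?_, ?_, ?_⟩
  · intro n J p hp P V hV hg ⟨k, hk, hind⟩
    have hA : ∀ c : Fin n ⊕ Fin n → ℂ, (∀ i, c (Sum.inr i) ≠ 0) →
        ∀ H : MvPolynomial (Fin n ⊕ Fin n) ℂ, (∃ q ∈ Translate c V, eval q H ≠ 0) →
        ∃ z : Fin n → ℂ, ExpPoint z ∈ Translate c V ∧ eval (ExpPoint z) H ≠ 0 := by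
      intro c hc H hH
      obtain ⟨q, ⟨u, hu, rfl⟩, hq⟩ := hH
      obtain ⟨z, hz, hz'⟩ := Pool.Agent.Run7.h490.geGraph J p hp.1 hp.2.1 hp.2.2 P V hV.prime
        hV.points hV.nonempty hg k hk hind c hc H ⟨u, hu, hq⟩
      exact ⟨z, hz, hz'⟩
    refine ⟨hA, fun hd K _ ⟨S, hS⟩ => ?_⟩
    have hgen := Pool.Agent.Y563.SE.generic_pts P V hV.prime hV.points hV.nonempty (by
      intro J hJ
      have h1 := hd.2 J hJ
      unfold Indep at h1
      push Not at h1
      obtain ⟨f, h2, h3, h4⟩ := h1
      exact ⟨f, h4, h2, h3⟩) K S hS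
    have hne : ∀ᵐ c : Fin n ⊕ Fin n → ℂ, ∀ i : Fin n, c (Sum.inr i) ≠ 0 := by
      rw [ae_all_iff]
      intro i
      have h1 : (volume : Measure (Fin n ⊕ Fin n → ℂ)) {c | c (Sum.inr i) = 0} = 0 := by
        have h2 : {c : Fin n ⊕ Fin n → ℂ | c (Sum.inr i) = 0} =
            (LinearMap.ker (LinearMap.proj (R := ℝ) (φ := fun _ : Fin n ⊕ Fin n => ℂ)
              (Sum.inr i)) : Set (Fin n ⊕ Fin n → ℂ)) := by
          ext c
          simp
        rw [h2]
        refine Measure.addHaar_submodule _ _ fun h => ?_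
        have h3 : (fun _ => (1 : ℂ) : Fin n ⊕ Fin n → ℂ) ∈
            LinearMap.ker (LinearMap.proj (R := ℝ) (φ := fun _ : Fin n ⊕ Fin n => ℂ)
              (Sum.inr i)) := by
          rw [h]
          trivial
        simp at h3
      rw [ae_iff]
      simpa using h1
    filter_upwards [hgen, hne] with c hc hc'
    refine ⟨hc', fun H hH => ?_⟩
    obtain ⟨z, hz, hz'⟩ := hA c hc' H hH
    exact ⟨z, hz, hz', hc z hz⟩
  · intro n J p hJ hd hs
    refine ⟨hJ, by omega, fun v hv hvJ => Or.inl ?_⟩
    obtain ⟨j, hj⟩ : ∃ j, eval (fun i => (v i : ℂ)) (pderiv j (leading p)) ≠ 0 := by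
      by_contra hcon
      push Not at hcon
      have h1 := hs (fun i => (v i : ℂ)) (by rw [hvJ, Rat.cast_zero]) hcon
      apply hv
      funext i
      have := congrFun h1 i
      simp only [Pi.zero_apply] at this
      exact_mod_cast this
    exact Pool.Agent.Run7.h490.adm_of_smooth (leading p) (hlead p) hd (fun i => (v i : ℂ)) j hj
  · intro n J p hJ hd he hre hv
    have hp0 : p ≠ 0 := by
      rintro rfl
      simp at hd
    have hl0 : leading p ≠ 0 := by
      intro h0
      obtain ⟨m, hm, hmd⟩ : ∃ m ∈ p.support, m.degree = p.totalDegree := by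
        have h1 : p.support.Nonempty := by
          rw [Finset.nonempty_iff_ne_empty, Ne, MvPolynomial.support_eq_empty]
          exact hp0
        obtain ⟨m, hm, hmd⟩ := Finset.exists_mem_eq_sup p.support h1 (fun m => m.degree)
        exact ⟨m, hm, hmd.symm⟩
      have h2 := congrArg (coeff m) h0
      unfold leading at h2
      rw [coeff_homogeneousComponent, if_pos hmd, coeff_zero] at h2
      exact mem_support_iff.1 hm h2
    exact ⟨hJ, hd, fun v hv0 hvJ => Or.inr ⟨hv v hv0 hvJ,
      Pool.Agent.Run7.h490.adm_of_real (leading p) he hd hl0 hre⟩⟩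
  · intro n d J hn hd
    filter_upwards [Pool.Agent.Run7.h490.ae_indep {m // m ∈ exponents n d J}] with a ha
    have hac := Pool.Agent.Run7.h490.complex_of_real a ha
    obtain ⟨h1, h2, h3⟩ := Pool.Agent.Run7.h490.adm_gen (n := n) (d := d) hn J a
      hac.linearIndependent
    exact ⟨h2, hC1 n J (poly J a) h1 (hd.trans h2.ge) h3⟩

end Pool.Agent.Results.MP_209724_lc.PolynomialGraphs
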